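import Pool.Agent.Y162.GQ.Alg

/-!
# Generic quadratic algebras with more than `n²/4` relations are finite dimensional

Stronger form of the earlier result `FiniteDimQuadratic` (existence over each field): one
nilpotency index and one integral polynomial work for all fields.
-/

set_option autoImplicit false

namespace Pool.Agent.Results.MP_f6e06e_al.GenericQuadraticAlgebras

open Pool.Agent.Y162.GQ MvPolynomial

universe u

/-- Let `n, d` with `d > n² / 4`. There are `N`, `C` and a polynomial `P` with integral
coefficients in the `d n²` coefficients of `d` quadratic relations, which does not vanish modulo any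
prime, such that:
1. over every field, for all relations whose coefficients `c` satisfy `P(c) ≠ 0` the quadratic
algebra is finite dimensional, and all products of `N` generators vanish;
2. over every field there are relations with this property (with the same `N`), linearly
independent ones if `d ≤ n²`;
3. over every finite field with `q` elements the proportion of the families of relations without
this property is at most `C / q`. -/
theorem result (n d : ℕ) (h : n ^ 2 < 4 * d) :
    ∃ (N C : ℕ) (P : MvPolynomial (Fin d × Fin n × Fin n) ℤ),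
      (∀ p : ℕ, p.Prime → P.map (Int.castRingHom (ZMod p)) ≠ 0) ∧
      (∀ (K : Type u) [Field K] (c : Fin d × Fin n × Fin n → K),
        aeval c P ≠ 0 → NilAlg N c) ∧
      (∀ (K : Type u) [Field K], ∃ c : Fin d × Fin n × Fin n → K,
        (d ≤ n ^ 2 → LinearIndependent K (quad c)) ∧ NilAlg N c) ∧
      (∀ (K : Type u) [Field K] [Finite K],
        Nat.card {c : Fin d × Fin n × Fin n → K // ¬ NilAlg N c} * Nat.card K ≤
          C * Nat.card (Fin d × Fin n × Fin n → K)) := by
  have hd : 0 < d := by omega
  obtain ⟨N1, hN1⟩ := uniform.{u} n d h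
  obtain ⟨N2, hN2⟩ := uniform.{0} n d h
  obtain ⟨N, hN⟩ : ∃ N, N = max N1 N2 + 1 := ⟨_, rfl⟩
  have hA : ∀ (K : Type u) [Field K], ∃ R : Fin d → Fin n → Fin n → K,
      Pool.Agent.TH40.Quad.Nil R N := by
    intro K _
    obtain ⟨R, hR⟩ := hN1 K
    exact ⟨R, nil_mono R hR (by rw [hN]; exact (le_max_left _ _).trans (Nat.le_succ _))⟩
  obtain ⟨P, hP1, hP2⟩ := generic.{u} n d N (fun p _ => by
    obtain ⟨R, hR⟩ := hN2 (ZMod p)
    exact ⟨R, nil_mono R hR (by rw [hN]; exact (le_max_right _ _).trans (Nat.le_succ _))⟩)
    hd (by omega)
  refine ⟨N, P.totalDegree, P, hP1, ?_, ?_, ?_⟩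
  · intro K _ c hc
    exact nilAlg_of_nil N c (hP2 K c hc)
  · intro K _
    obtain ⟨R, hR⟩ := hA K
    obtain ⟨R', hR1, hR2⟩ := family_of_nil R N hR
    refine ⟨fun x => R' x.1 x.2.1 x.2.2, fun hdn => ?_, nilAlg_of_nil N _ hR2⟩
    exact (hR1 hdn).map' (Pool.Agent.TH40.Quad.quadEl n)
      (LinearMap.ker_eq_bot.mpr (Pool.Agent.TH40.Quad.quadEl_injective n))
  · intro K _ _
    have hPK : P.map (Int.castRingHom K) ≠ 0 := by
      obtain ⟨p, hp⟩ := CharP.exists K
      have hpp : p.Prime := by
        rcases CharP.char_is_prime_or_zero K p with h1 | h1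
        · exact h1
        · subst h1
          have : CharZero K := CharP.charP_to_charZero K
          exact absurd (Infinite.of_injective (Nat.cast : ℕ → K) Nat.cast_injective)
            (not_infinite_iff_finite.2 inferInstance)
      have : Fact p.Prime := ⟨hpp⟩
      intro h0
      apply hP1 p hpp
      have h2 : (P.map (Int.castRingHom (ZMod p))).map (ZMod.castHom dvd_rfl K) = 0 := by
        have e : (ZMod.castHom (dvd_refl p) K).comp (Int.castRingHom (ZMod p)) =
            Int.castRingHom K := RingHom.ext_int _ _
        rw [map_map, e, h0]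
      have h3 := map_injective (σ := Fin d × Fin n × Fin n) (ZMod.castHom (dvd_refl p) K)
        (ZMod.castHom dvd_rfl K).injective
      exact h3 (h2.trans (map_zero _).symm)
    have h1 := sz (P.map (Int.castRingHom K)) hPK
    have h2 : (P.map (Int.castRingHom K)).totalDegree ≤ P.totalDegree := by
      unfold totalDegree
      exact Finset.sup_mono (support_map_subset _ _)
    have h3 : Nat.card {c : Fin d × Fin n × Fin n → K // ¬ NilAlg N c} ≤
        Nat.card {c : Fin d × Fin n × Fin n → K // eval c (P.map (Int.castRingHom K)) = 0} := by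
      have h4 : ∀ c : Fin d × Fin n × Fin n → K, ¬ NilAlg N c →
          eval c (P.map (Int.castRingHom K)) = 0 := by
        intro c hc
        by_contra hc'
        refine hc (nilAlg_of_nil N c (hP2 K c ?_))
        rwa [aeval_def, eval₂_eq_eval_map]
      exact Nat.card_le_card_of_injective (Subtype.map id h4)
        (Subtype.map_injective h4 Function.injective_id)
    calc _ ≤ Nat.card {c : Fin d × Fin n × Fin n → K //
          eval c (P.map (Int.castRingHom K)) = 0} * Nat.card K := Nat.mul_le_mul_right _ h3
      _ ≤ _ := h1.trans (Nat.mul_le_mul_right _ h2)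

end Pool.Agent.Results.MP_f6e06e_al.GenericQuadraticAlgebras
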